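import Mathlib

set_option autoImplicit false

namespace Pool.Agent.Results.MP_6bfe6b_gt.Preimages

open CategoryTheory Set Function

universe u

/-- bicommutative square -/
def Bicomm {X' Y' X Y : CompHaus.{u}} (f' : X' ⟶ Y') (f : X ⟶ Y) (pX : X' ⟶ X) (pY : Y' ⟶ Y) :
    Prop := ∀ x : X, f' '' (pX ⁻¹' {x}) = pY ⁻¹' {f x}

/-- monomorphic functor -/
def Monom (F : CompHaus.{u} ⥤ CompHaus.{u}) : Prop :=
  ∀ {X Y : CompHaus.{u}} (f : X ⟶ Y), Injective f → Injective (F.map f)

/-- `F` preserves bicommutativity of the squares with injective `f, f'` whose corner `X`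
satisfies `P` -/
def Pres (F : CompHaus.{u} ⥤ CompHaus.{u}) (P : CompHaus.{u} → Prop) : Prop :=
  ∀ {X' Y' X Y : CompHaus.{u}} (f' : X' ⟶ Y') (f : X ⟶ Y) (pX : X' ⟶ X) (pY : Y' ⟶ Y),
    pX ≫ f = f' ≫ pY → Injective f → Injective f' → P X → Bicomm f' f pX pY →
    Bicomm (F.map f') (F.map f) (F.map pX) (F.map pY)

lemma collapse {X Y : Type u} [TopologicalSpace X] [CompactSpace X] [TopologicalSpace Y]
    [CompactSpace Y] [T2Space Y] (f : X → Y) (hf : Continuous f) :
    ∃ (I : Type u) (q : C(Y, I → unitInterval)), ∀ y, q y = (fun _ => 0) ↔ y ∈ range f := by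
  refine ⟨{g : C(Y, unitInterval) // ∀ x, g (f x) = 0},
    ⟨fun y g => g.1 y, continuous_pi fun g => g.1.continuous⟩, fun y => ⟨fun hy => ?_, ?_⟩⟩
  · by_contra hn
    obtain ⟨g, g0, g1, g2⟩ := exists_continuous_zero_one_of_isClosed
      (isCompact_range hf).isClosed isClosed_singleton (disjoint_singleton_right.2 hn)
    have := congrFun hy ⟨⟨fun y => ⟨g y, g2 y⟩, by fun_prop⟩, fun x => Subtype.ext (g0 ⟨x, rfl⟩)⟩
    have h1 : g y = 0 := congrArg Subtype.val this
    have h2 : g y = 1 := g1 rfl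
    linarith
  · rintro ⟨x, rfl⟩
    funext g
    exact g.2 x

theorem result (F : CompHaus.{u} ⥤ CompHaus.{u}) (hm : Monom F)
    (h : Pres F fun X => Finite X) : Pres F fun _ => True := by
  intro X' Y' X Y f' f pX pY hc hf hf' _ hb
  by_cases hX : Nonempty X
  swap
  · have := not_nonempty_iff.1 hX
    exact h f' f pX pY hc hf hf' inferInstance hb
  have hc' : ∀ z, F.map f (F.map pX z) = F.map pY (F.map f' z) := fun z => by
    rw [← ConcreteCategory.comp_apply, ← ConcreteCategory.comp_apply, ← F.map_comp, ← F.map_comp, hc]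
  intro ξ
  refine Subset.antisymm ?_ fun η hη => ?_
  · rintro _ ⟨z, rfl, rfl⟩
    exact (hc' z).symm
  obtain ⟨I, q0, hq0⟩ := collapse (X := X) (Y := Y) f f.hom.hom.continuous
  let T : CompHaus.{u} := CompHaus.of (I → unitInterval)
  let P : CompHaus.{u} := CompHaus.of PUnit.{u + 1}
  let q : Y ⟶ T := CompHausLike.ofHom _ q0
  let i : P ⟶ T := CompHausLike.ofHom _ ⟨fun _ _ => 0, by fun_prop⟩
  let c : X ⟶ P := CompHausLike.ofHom _ ⟨fun _ => PUnit.unit, by fun_prop⟩
  have e : c ≫ i = f ≫ q := by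
    apply ConcreteCategory.hom_ext
    intro x
    exact ((hq0 _).2 ⟨x, rfl⟩).symm
  have hq : ∀ y, q y = i PUnit.unit → y ∈ range f := fun y hy => (hq0 y).1 hy
  have H := h f' i (pX ≫ c) (pY ≫ q) (by rw [Category.assoc, e, ← Category.assoc, hc, Category.assoc])
    (fun _ _ _ => rfl) hf' (inferInstanceAs (Finite PUnit)) (by
      rintro ⟨⟩
      refine Subset.antisymm ?_ fun y hy => ?_
      · rintro _ ⟨z, -, rfl⟩
        show (f' ≫ pY ≫ q) z = _
        rw [← Category.assoc, ← hc, Category.assoc, ← e]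
        rfl
      · obtain ⟨x, hx⟩ := hq (pY y) hy
        obtain ⟨z, -, rfl⟩ := (hb x).symm.subset (show y ∈ pY ⁻¹' {f x} from hx.symm)
        exact ⟨z, rfl, rfl⟩) (F.map c ξ)
  obtain ⟨z, -, rfl⟩ := H.symm.subset (show η ∈ _ from by
    show F.map (pY ≫ q) η = F.map i (F.map c ξ)
    rw [F.map_comp, ConcreteCategory.comp_apply, show F.map pY η = F.map f ξ from hη,
      ← ConcreteCategory.comp_apply, ← ConcreteCategory.comp_apply, ← F.map_comp, ← F.map_comp, e])
  exact ⟨z, hm f hf ((hc' z).trans hη), rfl⟩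

end Pool.Agent.Results.MP_6bfe6b_gt.Preimages
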